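import Mathlib
set_option autoImplicit false

/-!
# B11 doom (MP_cf7fa9_pr), pure combinatorics of an integer path
-/

namespace Pool.Agent.Helper55.PC

namespace B11

lemma last_exit (D : ℕ → ℤ) (hD : ∀ s, |D (s + 1) - D s| ≤ 1) (s0 s1 : ℕ) (h : s0 ≤ s1)
    (lo hi : ℤ) (hlt : lo < hi) (h0 : D s0 ≤ lo) (h1 : hi ≤ D s1) :
    ∃ a, s0 ≤ a ∧ a < s1 ∧ lo ≤ D a ∧ D a < hi ∧ ∀ s, a < s → s ≤ s1 → hi ≤ D s := by
  classical
  have hex : ∃ n, n ≤ s1 ∧ D n < hi := ⟨s0, h, by linarith⟩
  set a := Nat.findGreatest (fun s => D s < hi) s1 with ha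
  have hspec : D a < hi := Nat.findGreatest_spec (P := fun s => D s < hi) h (by linarith)
  have hle : a ≤ s1 := Nat.findGreatest_le s1
  have hge : s0 ≤ a := Nat.le_findGreatest h (show D s0 < hi by linarith)
  have hgt : ∀ s, a < s → s ≤ s1 → hi ≤ D s := by
    intro s hs hs1
    by_contra hcon
    push Not at hcon
    exact Nat.findGreatest_is_greatest hs hs1 hcon
  have hne : a < s1 := by
    rcases Nat.eq_or_lt_of_le hle with e | e
    · rw [e] at hspec; omega
    · exact e
  refine ⟨a, hge, hne, ?_, hspec, hgt⟩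
  have h2 := hgt (a + 1) (Nat.lt_succ_self a) hne
  have h3 := hD a
  rw [abs_le] at h3
  omega

lemma first_hit (D : ℕ → ℤ) (hD : ∀ s, |D (s + 1) - D s| ≤ 1) (a s1 : ℕ) (h : a ≤ s1)
    (T : ℤ) (ha : D a < T) (h1 : T ≤ D s1) :
    ∃ b, a < b ∧ b ≤ s1 ∧ D b = T ∧ ∀ s, a ≤ s → s < b → D s < T := by
  classical
  have hex : ∃ s, a ≤ s ∧ T ≤ D s := ⟨s1, h, h1⟩
  set b := Nat.find hex with hb
  have hspec := Nat.find_spec hex
  rw [← hb] at hspec
  have hmin : ∀ s, a ≤ s → s < b → D s < T := by
    intro s hs hsb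
    by_contra hcon
    push Not at hcon
    exact Nat.find_min hex hsb ⟨hs, hcon⟩
  have hlt : a < b := by
    rcases Nat.eq_or_lt_of_le hspec.1 with e | e
    · rw [← e] at hspec; omega
    · exact e
  refine ⟨b, hlt, Nat.find_min' hex ⟨h, h1⟩, ?_, hmin⟩
  clear_value b
  obtain ⟨c, rfl⟩ : ∃ c, b = c + 1 := ⟨b - 1, by omega⟩
  have h2 := hmin c (by omega) (by omega)
  have h3 := hD c
  rw [abs_le] at h3
  have := hspec.2
  omega

end B11

open B11 in
theorem doom (k L r M : ℕ) (hk : 3 ≤ k) (hr1 : 1 ≤ r) (hr : r ≤ L) (C : ℕ → ℤ)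
    (hC : ∀ s, |C (s + 1) - C s| ≤ 1) (x : ℤ) (Z : ℕ → ZMod k → ℕ) (hZM : ∀ s j, Z s j ≤ M)
    (hZ : ∀ s j, Z (s + 1) j ≠ Z s j →
      ∃ J : ℤ, (J : ZMod k) = j ∧ J * (12 * L) ≤ C s - x ∧ C s - x < J * (12 * L) + r)
    (s0 s1 : ℕ) (h01 : s0 ≤ s1) (hup : ((M : ℤ) + 4) * (12 * L) ≤ C s1 - C s0)
    (hdd : ∀ u v, s0 ≤ u → u ≤ v → v ≤ s1 → C u - C v < ((k : ℤ) - 2) * (12 * L)) :
    ∃ (J : ℤ) (a b : ℕ), s0 ≤ a ∧ a < b ∧ b ≤ s1 ∧
      J * (12 * L) ≤ C a - x ∧ C a - x < J * (12 * L) + r ∧ C b - x = (J + 1) * (12 * L) ∧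
      ∀ s, a < s → s < b → (J * (12 * L) + r ≤ C s - x ∧ C s - x < (J + 1) * (12 * L)) ∧
        Z s (J : ZMod k) ≤ Z s ((J - 1 : ℤ) : ZMod k) := by
  classical
  set g : ℤ := 12 * (L : ℤ) with hg
  have hL : (1 : ℤ) ≤ L := by exact_mod_cast hr1.trans hr
  have hrL : (r : ℤ) ≤ L := by exact_mod_cast hr
  have hr1' : (1 : ℤ) ≤ r := by exact_mod_cast hr1
  have hgpos : 0 < g := by rw [hg]; linarith
  have hrg : (r : ℤ) < g := by rw [hg]; linarith
  set D : ℕ → ℤ := fun s => C s - x with hDdef
  have hD : ∀ s, |D (s + 1) - D s| ≤ 1 := by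
    intro s
    simp only [hDdef]
    have := hC s
    rwa [sub_sub_sub_cancel_right]
  -- J0 = ceiling
  obtain ⟨J0, hJ0a, hJ0b⟩ : ∃ J0 : ℤ, (J0 - 1) * g < D s0 ∧ D s0 ≤ J0 * g := by
    refine ⟨-((-(D s0)) / g), ?_, ?_⟩
    · have h1 := Int.lt_ediv_add_one_mul_self (-(D s0)) hgpos
      nlinarith [h1]
    · have h1 := Int.ediv_mul_le (-(D s0)) hgpos.ne'
      nlinarith [h1]
  have hup' : (J0 + M + 3) * g < D s1 := by
    have : D s1 - D s0 = C s1 - C s0 := by simp only [hDdef]; ring
    nlinarith [hup, hJ0a]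
  -- the last exits
  have hex : ∀ n : ℕ, n ≤ M + 1 → ∃ a, s0 ≤ a ∧ a < s1 ∧ (J0 + n) * g ≤ D a ∧
      D a < (J0 + n) * g + r ∧ ∀ s, a < s → s ≤ s1 → (J0 + n) * g + r ≤ D s := by
    intro n hn
    have hn' : (n : ℤ) ≤ M + 1 := by exact_mod_cast hn
    refine last_exit D hD s0 s1 h01 _ _ (by linarith) ?_ ?_
    · have : (0:ℤ) ≤ n := by positivity
      nlinarith
    · nlinarith
  choose! σ hσ0 hσ1 hσlo hσhi hσaf using hex
  by_contra hcon
  push Not at hcon
  have hmain : ∀ n : ℕ, n ≤ M + 1 → n ≤ Z (σ n + 1) ((J0 + n : ℤ) : ZMod k) := by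
    intro n
    induction n with
    | zero => intro _; omega
    | succ n ih =>
      intro hn
      have ihn := ih (by omega)
      have hn0 : n ≤ M + 1 := by omega
      have hn' : (n : ℤ) + 1 ≤ M + 1 := by exact_mod_cast hn
      have a1 := hσ0 (n + 1) hn
      have a2 := hσ1 (n + 1) hn
      have a3 := hσlo (n + 1) hn
      have a4 := hσhi (n + 1) hn
      have a5 := hσaf (n + 1) hn
      have b1 := hσ0 n hn0
      have b2 := hσ1 n hn0
      have b3 := hσlo n hn0
      have b4 := hσhi n hn0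
      have b5 := hσaf n hn0
      push_cast at a3 a4 a5
      -- J = J0 + (n+1)
      set J : ℤ := J0 + (n + 1) with hJ
      have hJn : J0 + (n : ℤ) = J - 1 := by rw [hJ]; ring
      rw [hJn] at b3 b4 b5 ihn
      have hJtop : (J + 1) * g ≤ (J0 + M + 3) * g :=
        mul_le_mul_of_nonneg_right (by rw [hJ]; linarith) hgpos.le
      have hJs : J * g + g ≤ D s1 := by
        have : J * g + g = (J + 1) * g := by ring
        linarith
      have hcast : ((J0 + ((n + 1 : ℕ) : ℤ) : ℤ) : ZMod k) = ((J : ℤ) : ZMod k) := by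
        rw [hJ]; push_cast; ring
      clear_value J
      -- σ n < σ (n+1)
      have hlt : σ n < σ (n + 1) := by
        by_contra hc
        push Not at hc
        have e1 : (J - 1) * g = J * g - g := by ring
        rcases Nat.eq_or_lt_of_le hc with e | e
        · rw [e] at a3; linarith only [a3, b4, e1, hrg]
        · have := a5 (σ n) e b2.le
          linarith only [this, b4, e1, hrg, hr1']
      have eJ1 : (J + 1) * g = J * g + g := by ring
      obtain ⟨b, hb1, hb2, hb3, hb4⟩ := first_hit D hD (σ (n + 1)) s1 a2.le ((J + 1) * g)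
        (by linarith only [a4, hrg, eJ1]) (by linarith only [hJs, eJ1])
      -- constancy on (σ, b]
      have hconst : ∀ j : ZMod k, ∀ s, σ (n + 1) < s → s ≤ b → Z s j = Z (σ (n + 1) + 1) j := by
        intro j s hs
        induction s, hs using Nat.le_induction with
        | base => intro _; rfl
        | succ s hs ihs =>
          intro hsb
          rw [← ihs (by omega)]
          by_contra hne
          obtain ⟨J', hJ', h1, h2⟩ := hZ s j hne
          have h3 := a5 s hs (by omega)
          have h4 := hb4 s (by omega) (by omega)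
          simp only [hDdef] at h3 h4
          have h5 : J * g < (J' + 1) * g := by
            have : (J' + 1) * g = J' * g + g := by ring
            linarith only [this, h2, h3, hrg, hr1']
          have h6 : J' * g < (J + 1) * g := by linarith
          have h7 := lt_of_mul_lt_mul_right h5 hgpos.le
          have h8 := lt_of_mul_lt_mul_right h6 hgpos.le
          have : J' = J := by omega
          subst this
          linarith
      -- Z (J-1) constant between σ n + 1 and σ (n+1) + 1
      have hconst2 : ∀ s, σ n < s → s ≤ σ (n + 1) + 1 →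
          Z s ((J - 1 : ℤ) : ZMod k) = Z (σ n + 1) ((J - 1 : ℤ) : ZMod k) := by
        intro s hs
        induction s, hs using Nat.le_induction with
        | base => intro _; rfl
        | succ s hs ihs =>
          intro hsb
          rw [← ihs (by omega)]
          by_contra hne
          obtain ⟨J', hJ', h1, h2⟩ := hZ s _ hne
          rw [ZMod.intCast_eq_intCast_iff_dvd_sub] at hJ'
          obtain ⟨c, hc⟩ := hJ'
          have h3 := b5 s hs (by omega)
          simp only [hDdef] at h3
          have hkpos : (0 : ℤ) < k := by exact_mod_cast (by omega : 0 < k)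
          have hcase : c = 0 ∨ 1 ≤ c ∨ c ≤ -1 := by omega
          rcases hcase with hc0 | hc0 | hc0
          · subst hc0
            have : J' = J - 1 := by linarith
            subst this
            linarith
          · -- J' below
            have h4 : (k : ℤ) * 1 ≤ k * c := mul_le_mul_of_nonneg_left hc0 hkpos.le
            have h5 : J' ≤ J - 2 := by linarith
            have h6 : J' * g ≤ (J - 2) * g := mul_le_mul_of_nonneg_right h5 hgpos.le
            have e1 : (J - 2) * g = J * g - 2 * g := by ring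
            have e2 : (J - 1) * g = J * g - g := by ring
            linarith only [h2, h3, h6, e1, e2, hgpos]
          · -- J' above
            have h4 : (k : ℤ) * c ≤ k * (-1) := mul_le_mul_of_nonneg_left hc0 hkpos.le
            have h5 : J - 1 + k ≤ J' := by linarith
            have h6 := hdd s (σ (n + 1)) (by omega) (by omega) a2.le
            simp only [hDdef] at a4
            have h7 : (J - 1 + k) * g ≤ J' * g := mul_le_mul_of_nonneg_right h5 hgpos.le
            have e1 : (J - 1 + k) * g = J * g - g + k * g := by ring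
            have e2 : ((k : ℤ) - 2) * g = k * g - 2 * g := by ring
            linarith only [h1, h6, h7, e1, e2, a4, hrg]
      have hfail := hcon J (σ (n + 1)) b a1 hb1 hb2 a3 a4 hb3
      obtain ⟨s, hs1, hs2, hs3⟩ := hfail
      have hs4 := hs3 ⟨a5 s hs1 (by omega), hb4 s hs1.le hs2⟩
      rw [hconst _ s hs1 hs2.le, hconst _ s hs1 hs2.le, hconst2 (σ (n + 1) + 1) (by omega) le_rfl]
        at hs4
      rw [hcast]
      omega
  have h1 := hmain (M + 1) le_rfl
  have h2 := hZM (σ (M + 1) + 1) ((J0 + ((M + 1 : ℕ) : ℤ) : ℤ) : ZMod k)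
  omega

end Pool.Agent.Helper55.PC
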