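import Mathlib
set_option autoImplicit false

/-!
# B9 survive_labels (MP_cf7fa9_pr), pure combinatorics of an integer path
-/

namespace Pool.Agent.Helper55.PC

namespace B9

/-- window membership `y ∈ (J n - k, J n]` -/
def W (k : ℕ) (J : ℕ → ℤ) (y : ℤ) (n : ℕ) : Prop := J n - k < y ∧ y ≤ J n

/-- `y` is in all windows between `n` and `n'` -/
def Seg (k : ℕ) (J : ℕ → ℤ) (y : ℤ) (n n' : ℕ) : Prop :=
  ∀ s, (n ≤ s ∧ s ≤ n') ∨ (n' ≤ s ∧ s ≤ n) → W k J y s

/-- chains of length `h` below `y` at time `n` -/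
def P (k : ℕ) (J : ℕ → ℤ) : ℕ → ℤ → ℕ → Prop
  | 0, _, _ => True
  | h + 1, y, n => ∃ n', Seg k J y n n' ∧ W k J (y - 1) n' ∧ P k J h (y - 1) n'

lemma claim (k : ℕ) (J : ℕ → ℤ) (hk : 2 ≤ k) (h : ℕ) : ∀ (y : ℤ) (n : ℕ), W k J y n →
    P k J h y n →
    (∃ t, t ≤ n ∧ J t ≤ y - h + k - 1 ∧ (∀ s, t ≤ s → s ≤ n → J s < y + k) ∧
      ∀ u v, t ≤ u → u ≤ v → v ≤ n → J u - J v < k) ∨
    (∃ t, n ≤ t ∧ J t ≤ y - h + k - 1 ∧ (∀ s, n ≤ s → s ≤ t → J s < y + k) ∧
      ∀ u v, n ≤ u → u ≤ v → v ≤ t → J v - J u < k) := by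
  induction h with
  | zero =>
    intro y n hW _
    left
    refine ⟨n, le_rfl, ?_, ?_, ?_⟩
    · have := hW.1; push_cast; linarith
    · intro s h1 h2
      have : s = n := le_antisymm h2 h1
      subst this
      have := hW.1; linarith
    · intro u v h1 h2 h3
      have hu : u = n := le_antisymm (h2.trans h3) h1
      have hv : v = n := le_antisymm h3 (h1.trans h2)
      subst hu; subst hv
      simp; omega
  | succ h ih =>
    intro y n hW hP
    obtain ⟨n', hseg, hW', hP'⟩ := hP
    have hsegb : ∀ s, (n ≤ s ∧ s ≤ n') ∨ (n' ≤ s ∧ s ≤ n) → y ≤ J s ∧ J s ≤ y + k - 1 := by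
      intro s hs
      have := hseg s hs
      exact ⟨this.2, by have := this.1; linarith⟩
    rcases ih (y - 1) n' hW' hP' with ⟨t, ht, hJt, hlt, hdd⟩ | ⟨t, ht, hJt, hlt, hdu⟩
    · rcases le_total n' n with hnn | hnn
      · -- backward, n' ≤ n
        left
        refine ⟨t, ht.trans hnn, by push_cast; linarith, ?_, ?_⟩
        · intro s h1 h2
          rcases le_total s n' with h3 | h3
          · have := hlt s h1 h3; linarith
          · have := (hsegb s (Or.inr ⟨h3, h2⟩)).2; linarith
        · intro u v h1 h2 h3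
          rcases le_total v n' with h4 | h4
          · exact hdd u v h1 h2 h4
          · have hv := (hsegb v (Or.inr ⟨h4, h3⟩)).1
            rcases le_total u n' with h5 | h5
            · have := hlt u h1 h5; linarith
            · have := (hsegb u (Or.inr ⟨h5, h2.trans h3⟩)).2; linarith
      · -- backward type, n ≤ n'
        rcases le_total t n with htn | htn
        · left
          refine ⟨t, htn, by push_cast; linarith, ?_, ?_⟩
          · intro s h1 h2
            have := hlt s h1 (h2.trans hnn); linarith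
          · intro u v h1 h2 h3
            exact hdd u v h1 h2 (h3.trans hnn)
        · right
          refine ⟨t, htn, by push_cast; linarith, ?_, ?_⟩
          · intro s h1 h2
            have := (hsegb s (Or.inl ⟨h1, h2.trans ht⟩)).2; linarith
          · intro u v h1 h2 h3
            have hv := (hsegb v (Or.inl ⟨h1.trans h2, h3.trans ht⟩)).2
            have hu := (hsegb u (Or.inl ⟨h1, h2.trans (h3.trans ht)⟩)).1
            linarith
    · rcases le_total n' n with hnn | hnn
      · -- forward type, n' ≤ n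
        rcases le_total t n with htn | htn
        · left
          refine ⟨t, htn, by push_cast; linarith, ?_, ?_⟩
          · intro s h1 h2
            have := (hsegb s (Or.inr ⟨ht.trans h1, h2⟩)).2; linarith
          · intro u v h1 h2 h3
            have hv := (hsegb v (Or.inr ⟨ht.trans (h1.trans h2), h3⟩)).1
            have hu := (hsegb u (Or.inr ⟨ht.trans h1, h2.trans h3⟩)).2
            linarith
        · right
          refine ⟨t, htn, by push_cast; linarith, ?_, ?_⟩
          · intro s h1 h2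
            have := hlt s (hnn.trans h1) h2; linarith
          · intro u v h1 h2 h3
            exact hdu u v (hnn.trans h1) h2 h3
      · -- forward, n ≤ n'
        right
        refine ⟨t, hnn.trans ht, by push_cast; linarith, ?_, ?_⟩
        · intro s h1 h2
          rcases le_total s n' with h3 | h3
          · have := (hsegb s (Or.inl ⟨h1, h3⟩)).2; linarith
          · have := hlt s h3 h2; linarith
        · intro u v h1 h2 h3
          rcases le_total u n' with h4 | h4
          · have hu := (hsegb u (Or.inl ⟨h1, h4⟩)).1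
            rcases le_total v n' with h5 | h5
            · have := (hsegb v (Or.inl ⟨h1.trans h2, h5⟩)).2; linarith
            · have := hlt v h5 h3; linarith
          · exact hdu u v h4 h2 h3

lemma bound (k A M : ℕ) (hk : 2 ≤ k) (hM : A + k ≤ M + 1) (J : ℕ → ℤ)
    (hrise : ∀ s t, s ≤ t → (A : ℤ) < J t - J s →
      ∃ u v, s ≤ u ∧ u ≤ v ∧ v ≤ t ∧ (k : ℤ) ≤ J u - J v)
    (hfall : ∀ s t, s ≤ t → (A : ℤ) < J s - J t →
      ∃ u v, s ≤ u ∧ u ≤ v ∧ v ≤ t ∧ (k : ℤ) ≤ J v - J u)
    (h : ℕ) (y : ℤ) (n : ℕ) (hW : W k J y n) (hP : P k J h y n) : h ≤ M := by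
  by_contra hcon
  push Not at hcon
  have hyn := hW.2
  rcases claim k J hk h y n hW hP with ⟨t, ht, hJt, _, hdd⟩ | ⟨t, ht, hJt, _, hdu⟩
  · obtain ⟨u, v, h1, h2, h3, h4⟩ := hrise t n ht (by push_cast; omega)
    have := hdd u v h1 h2 h3
    omega
  · obtain ⟨u, v, h1, h2, h3, h4⟩ := hfall n t ht (by push_cast; omega)
    have := hdu u v h1 h2 h3
    omega

/-- the representative of `j` in the window at time `n` -/
noncomputable def rep (k : ℕ) (J : ℕ → ℤ) (n : ℕ) (j : ZMod k) : ℤ :=
  J n - (((J n : ZMod k) - j).val : ℤ)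

lemma rep_mem (k : ℕ) [NeZero k] (J : ℕ → ℤ) (n : ℕ) (j : ZMod k) : W k J (rep k J n j) n := by
  unfold W rep
  have h1 := ZMod.val_lt ((J n : ZMod k) - j)
  constructor
  · have : (((J n : ZMod k) - j).val : ℤ) < k := by exact_mod_cast h1
    linarith
  · have : (0 : ℤ) ≤ (((J n : ZMod k) - j).val : ℤ) := by positivity
    linarith

lemma rep_cast (k : ℕ) [NeZero k] (J : ℕ → ℤ) (n : ℕ) (j : ZMod k) :
    ((rep k J n j : ℤ) : ZMod k) = j := by
  unfold rep
  push_cast
  rw [ZMod.natCast_zmod_val]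
  ring

lemma rep_eq (k : ℕ) [NeZero k] (J : ℕ → ℤ) (n : ℕ) (j : ZMod k) (y : ℤ) (hy : W k J y n)
    (hj : ((y : ℤ) : ZMod k) = j) : rep k J n j = y := by
  have h1 := rep_mem k J n j
  have h2 : ((rep k J n j : ℤ) : ZMod k) = ((y : ℤ) : ZMod k) := by rw [rep_cast, hj]
  rw [ZMod.intCast_eq_intCast_iff_dvd_sub] at h2
  obtain ⟨c, hc⟩ := h2
  obtain ⟨a1, a2⟩ := h1
  obtain ⟨b1, b2⟩ := hy
  have hkpos : (0 : ℤ) < k := by exact_mod_cast Nat.pos_of_ne_zero (NeZero.ne k)
  have hc1 : (k : ℤ) * c < k * 1 := by linarith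
  have hc2 : (k : ℤ) * (-1) < k * c := by linarith
  have hc3 := lt_of_mul_lt_mul_left hc1 hkpos.le
  have hc4 := lt_of_mul_lt_mul_left hc2 hkpos.le
  have : c = 0 := by omega
  subst this
  linarith

lemma P_succ_iff (k : ℕ) (J : ℕ → ℤ) (h : ℕ) (y : ℤ) (n : ℕ) (h1 : W k J y n)
    (h2 : W k J y (n + 1)) : P k J h y (n + 1) ↔ P k J h y n := by
  cases h with
  | zero => simp [P]
  | succ h =>
    constructor
    · rintro ⟨n', hs, hr⟩
      refine ⟨n', ?_, hr⟩
      intro s hs'
      rcases hs' with ⟨a, b⟩ | ⟨a, b⟩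
      · rcases Nat.eq_or_lt_of_le a with e | e
        · subst e; exact h1
        · exact hs s (Or.inl ⟨e, b⟩)
      · exact hs s (Or.inr ⟨a, by omega⟩)
    · rintro ⟨n', hs, hr⟩
      refine ⟨n', ?_, hr⟩
      intro s hs'
      rcases hs' with ⟨a, b⟩ | ⟨a, b⟩
      · exact hs s (Or.inl ⟨by omega, b⟩)
      · rcases Nat.eq_or_lt_of_le b with e | e
        · subst e; exact h2
        · exact hs s (Or.inr ⟨a, by omega⟩)

end B9

open B9 in
open scoped Classical in
theorem survive_labels (k A M : ℕ) (hk : 2 ≤ k) (hM : A + k ≤ M + 1) (J : ℕ → ℤ)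
    (hstep : ∀ n, |J (n + 1) - J n| ≤ 1)
    (hrise : ∀ s t, s ≤ t → (A : ℤ) < J t - J s →
      ∃ u v, s ≤ u ∧ u ≤ v ∧ v ≤ t ∧ (k : ℤ) ≤ J u - J v)
    (hfall : ∀ s t, s ≤ t → (A : ℤ) < J s - J t →
      ∃ u v, s ≤ u ∧ u ≤ v ∧ v ≤ t ∧ (k : ℤ) ≤ J v - J u) :
    ∃ Lab : ℕ → ZMod k → ℕ, (∀ n j, Lab n j ≤ M) ∧
      (∀ n, Lab n ((J n - 1 : ℤ) : ZMod k) < Lab n (J n : ZMod k)) ∧
      (∀ n j, Lab (n + 1) j ≠ Lab n j →
        J (n + 1) ≠ J n ∧ j = ((max (J n) (J (n + 1)) : ℤ) : ZMod k)) := by
  haveI : NeZero k := ⟨by omega⟩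
  refine ⟨fun n j => Nat.findGreatest (fun h => P k J h (rep k J n j) n) M,
    fun n j => Nat.findGreatest_le M, ?_, ?_⟩
  · intro n
    have hW0 : W k J (J n) n := ⟨by have : (0:ℤ) < k := by exact_mod_cast (by omega : 0 < k)
                                    linarith, le_rfl⟩
    have hW1 : W k J (J n - 1) n := ⟨by have : (1:ℤ) < k := by exact_mod_cast (by omega : 1 < k)
                                        linarith, by linarith⟩
    have e0 : rep k J n ((J n : ℤ) : ZMod k) = J n := rep_eq k J n _ _ hW0 rfl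
    have e1 : rep k J n ((J n - 1 : ℤ) : ZMod k) = J n - 1 := rep_eq k J n _ _ hW1 rfl
    simp only [e0, e1]
    set h := Nat.findGreatest (fun h => P k J h (J n - 1) n) M with hh
    have hP : P k J h (J n - 1) n := by
      have := Nat.findGreatest_spec (P := fun h => P k J h (J n - 1) n) (Nat.zero_le M)
        (by simp [P])
      exact this
    have hP' : P k J (h + 1) (J n) n := by
      refine ⟨n, ?_, hW1, hP⟩
      intro s hs
      have : s = n := by omega
      subst this
      exact hW0
    have hle : h + 1 ≤ M := bound k A M hk hM J hrise hfall (h + 1) (J n) n hW0 hP'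
    exact Nat.lt_of_succ_le (Nat.le_findGreatest hle hP')
  · intro n j hne
    have key : ∀ y : ℤ, rep k J n j = y → W k J y (n + 1) → False := by
      intro y hy hW'
      apply hne
      have hW : W k J y n := by rw [← hy]; exact rep_mem k J n j
      have hj : ((y : ℤ) : ZMod k) = j := by rw [← hy]; exact rep_cast k J n j
      have e1 : rep k J (n + 1) j = y := rep_eq k J (n + 1) j y hW' hj
      simp only [hy, e1]
      congr 1
      funext h
      exact propext (P_succ_iff k J h y n hW hW')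
    have hmem := rep_mem k J n j
    have hst := hstep n
    rw [abs_le] at hst
    have hcase : J (n + 1) = J n ∨ J (n + 1) = J n + 1 ∨ J (n + 1) = J n - 1 := by omega
    rcases hcase with h | h | h
    · exfalso
      refine key _ rfl ?_
      unfold W at hmem ⊢
      rw [h]; exact hmem
    · refine ⟨by omega, ?_⟩
      by_contra hj
      refine key _ rfl ?_
      unfold W at hmem ⊢
      refine ⟨?_, by linarith [hmem.2]⟩
      have : rep k J n j ≠ J n + 1 - k := by
        intro he
        apply hj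
        rw [h, max_eq_right (by linarith)]
        rw [← rep_cast k J n j, he]
        push_cast
        simp
      have h1 := hmem.1
      omega
    · refine ⟨by omega, ?_⟩
      by_contra hj
      refine key _ rfl ?_
      unfold W at hmem ⊢
      refine ⟨by linarith [hmem.1], ?_⟩
      have : rep k J n j ≠ J n := by
        intro he
        apply hj
        rw [h, max_eq_left (by linarith)]
        rw [← rep_cast k J n j, he]
      have h1 := hmem.2
      omega

end Pool.Agent.Helper55.PC
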